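import Pool.Agent.Q111.AE.Main2

/-!
Zero in the spectrum for a finite aspherical complex whose fundamental group `G` has an amenable
normal subgroup `N`: it follows from zero in the spectrum for `G/N` in a degree `i ≤ 2`, without
any condition on `N` except that `H_1(N; ℚ)` is finite-dimensional (only for `i = 2`); in higher
degrees under a condition on `H_q(N; ℤ)`, `1 ≤ q ≤ i - 2`.

`X : FinRes G` is the cellular chain complex of the universal cover of a finite aspherical complex
with fundamental group `G`, and `X.homology (toRed G) i` is `H_i(G; C*_r(G))`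
(`Pool.Agent.H919R4.ZS.Defs`). `X.homology (prN N) q` is the homology of `ℤ[G/N] ⊗ C_*`, i.e.
`H_q(N; ℤ)` as a module over `ℤ[G/N]`; `prN N : ℤ[G] → ℤ[G/N]` is the projection and
`Mild (MonoidAlgebra ℤ (G ⧸ N))` is the class of modules which have a finite filtration by
submodules with factors of finite exponent or infinite cyclic (`Pool.Agent.Q111.AE.Main`).
`FinRank M`: the vector space `ℚ ⊗ M` is finite-dimensional (`Pool.Agent.Q111.AE.Main2`).
Amenability is the Foelner condition (`Pool.Agent.H496R3.ZS.Stmt`).
-/

set_option autoImplicit false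

namespace Pool.Agent.Results.MP_9f173d_gt.AmenableNormalSubgroups

open Pool.Agent.H919R4.ZS (FinRes toRed)
open Pool.Agent.H496R3.ZS (IsAmenable)
open Pool.Agent.Q111.AE (prN Mild FinRank)

/-- Let `N` be an amenable normal subgroup of `G`. Let `X` and `Y` be finite free resolutions for
`G` and `G/N`. Suppose that `H_i(G/N; C*_r(G/N)) ≠ 0`, that `H_(i-1)(N; ℚ)` is finite-dimensional
(if `i ≥ 2`), and that for `1 ≤ q ≤ i - 2` the `ℤ[G/N]`-module `H_q(N; ℤ)` has a finite filtration
with factors of finite exponent or infinite cyclic. Then `H_j(G; C*_r(G)) ≠ 0` for some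
`j ≤ i`. -/
theorem result (G : Type) [Group G] (N : Subgroup G) [N.Normal] (hN : IsAmenable N)
    (X : FinRes G) (Y : FinRes (G ⧸ N)) (i : ℕ)
    (hY : Nontrivial (Y.homology (toRed (G ⧸ N)) i))
    (h1 : ∀ q, 1 ≤ q → q + 1 = i → FinRank (X.homology (prN N) q))
    (h2 : ∀ q, 1 ≤ q → q + 2 ≤ i → Mild (MonoidAlgebra ℤ (G ⧸ N)) (X.homology (prN N) q)) :
    ∃ j ≤ i, Nontrivial (X.homology (toRed G) j) := by
  by_contra hcon
  push Not at hcon
  exact not_nontrivial_iff_subsingleton.2 (Pool.Agent.Q111.AE.main2 N hN X Y i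
    (fun q hq hq' => h2 q hq (by omega)) h1
    (fun j hj => not_nontrivial_iff_subsingleton.1 (by simpa using hcon j hj)) i le_rfl) hY

end Pool.Agent.Results.MP_9f173d_gt.AmenableNormalSubgroups
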