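import Pool.Agent.Q134.ZS.RedNorm

/-!
Zero in the spectrum and asymptotically tempered representations.

Let `M` be a finite aspherical complex with fundamental group `G`; its universal cover has the
cellular chain complex `X : FinRes G` (`Pool.Agent.H919R4.ZS.Defs`). `RedNormLE x c`
(`Pool.Agent.Q134.ZS.RedNorm`) says that the norm of `x ∈ ℂ[G]` in `C*_r(G)` is at most `c`. For a
ring homomorphism `φ : ℂ[G] → A` the homology of `M` with coefficients in `A` is
`X.homology (φ.comp cx)`, where `cx : ℤ[G] → ℂ[G]` is the inclusion.

Examples of the hypothesis `hφ`: finite dimensional unitary representations which converge strongly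
to the regular representation (`A m` the algebra of matrices); the reduced `C*`-algebras of
quotients `G → G_m` which converge strongly; the regular representation twisted by characters
`G → ℂ*` (not unitary) which converge to a unitary one.
-/

set_option autoImplicit false

namespace Pool.Agent.Results.MP_9f173d_gt.Semicontinuity

open Pool.Agent.H919R4.ZS (FinRes toRed)
open Pool.Agent.Q134.ZS (cx RedNormLE)

/-- Let `A m` be Banach rings (complete normed rings) and `φ m : ℂ[G] → A m` ring homomorphisms,
such that along the filter `l` the upper limit of `‖φ m x‖` is at most the norm of `x` in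
`C*_r(G)`, for all `x`. If `H_i(M; A m) ≠ 0` for some `i ≤ k` (which may depend on `m`), for
arbitrarily large `m`, then `H_i(M; C*_r(G)) ≠ 0` for some `i ≤ k`. -/
theorem result (G : Type) [Group G] (X : FinRes G) (k : ℕ) (ι : Type) (l : Filter ι)
    (A : ι → Type) [∀ m, NormedRing (A m)] [∀ m, CompleteSpace (A m)]
    (φ : ∀ m, MonoidAlgebra ℂ G →+* A m)
    (hφ : ∀ (x : MonoidAlgebra ℂ G) (c : ℝ), RedNormLE x c →
      ∀ ε : ℝ, 0 < ε → ∀ᶠ m in l, ‖φ m x‖ ≤ c + ε)
    (h : ∃ᶠ m in l, ∃ i ≤ k, Nontrivial (X.homology ((φ m).comp cx) i)) :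
    ∃ i ≤ k, Nontrivial (X.homology (toRed G) i) :=
  Pool.Agent.Q134.ZS.semicontinuity' X k l A φ hφ h

end Pool.Agent.Results.MP_9f173d_gt.Semicontinuity
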