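import Pool.Agent.Q134.ZS.Main

/-!
Zero in the spectrum of a finite aspherical complex from cycles of small growth, in all degrees.

Let `M` be a finite aspherical complex with fundamental group `G`; its universal cover has the
cellular chain complex `X : FinRes G` (`Pool.Agent.H919R4.ZS.Defs`). Let `G` act on a set `Z` with
amenable stabilisers, for example `Z = G ⧸ C` for an amenable subgroup `C`, or `Z = G`. Tuples
`Fin (X.n k) → Z → ℂ` are the locally finite `k`-chains, and also the `k`-cochains, of the
covering of `M` which belongs to `Z` (for `Z = G ⧸ C`: the covering `M_C` with fundamental group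
`C`; for `Z = G`: the universal covering). Cycles, cocycles and growth are defined in
`Pool.Agent.Q134.ZS.Defs`.

The theorem: a locally finite `k`-cycle of subexponential growth which has a nonzero pairing with a
compactly supported `k`-cocycle puts zero in the spectrum. More generally it suffices to have such
pairs with cycles of arbitrarily small exponential growth.
-/

set_option autoImplicit false

namespace Pool.Agent.Results.MP_9f173d_gt.SlowCycles

open Pool.Agent.H919R4.ZS (FinRes toRed)
open Pool.Agent.H496R3.ZS (IsAmenable)
open Pool.Agent.Q134.ZS (SuppIn IsCycle IsCocycle GrowthLE)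

/-- Let `G` act on `Z` with amenable stabilisers. Suppose that for every finite set `F ⊆ G` and
every `lam > 1` there are a `k`-cycle `a` (not necessarily with finite support) and a `k`-cocycle
`b` with support in a finite set `S`, such that the pairing `∑ b a` is not zero and such that the
sum of the squares of the values of `a` in `F^r • S` is at most `lam^r`, for infinitely many `r`.
Then `H_i(M; C*_r(G)) ≠ 0` for some `i ≤ k`. -/
theorem result (G : Type) [Group G] (X : FinRes G) (k : ℕ) (Z : Type) [MulAction G Z]
    (hZ : ∀ z : Z, IsAmenable (MulAction.stabilizer G z))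
    (h : ∀ (F : Finset G) (lam : ℝ), 1 < lam →
      ∃ (a b : Fin (X.n k) → Z → ℂ) (S : Finset Z), IsCycle X k a ∧ IsCocycle X k b ∧
        SuppIn b S ∧ ∑ j, ∑ z ∈ S, b j z * a j z ≠ 0 ∧ GrowthLE a S F lam) :
    ∃ i ≤ k, Nontrivial (X.homology (toRed G) i) := by
  refine Pool.Agent.Q134.ZS.slow_cycle X k hZ fun F => ?_
  obtain ⟨a, b, S, h1, h2, h3, h4, h5⟩ := h F 2 (by norm_num)
  exact ⟨a, b, S, h3, h1, h2, h4, h5⟩

end Pool.Agent.Results.MP_9f173d_gt.SlowCycles
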